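import Pool.Agent.Helper80K9.DC.Digits

/-!
# Digit changes of quadratic irrationals
-/

set_option autoImplicit false

namespace Pool.Agent.Results.MP_175f55_nt.DigitChanges

/-- The digit of index `k` (that of weight `b ^ (-k)`) in the base `b` expansion of `ξ`. -/
noncomputable def digit (b : ℕ) (ξ : ℝ) (k : ℕ) : ℤ := ⌊ξ * (b : ℝ) ^ k⌋ % (b : ℤ)

/-- The number of indices `k` with `1 ≤ k ≤ N` at which the digit of index `k + l` differs from
the digit of index `k`. -/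
noncomputable def changes (b : ℕ) (ξ : ℝ) (l N : ℕ) : ℕ :=
  ((Finset.Icc 1 N).filter fun k => digit b ξ (k + l) ≠ digit b ξ k).card

/-- For `√2` in base ten, and for every real quadratic irrational in every base, and for every
lag `l`, the digits of index `k` and `k + l` differ for at least
`(1 / 100) (log N / log log N) ^ 2` of the `k` in `[1, N]`, as soon as `N` is large. -/
theorem result :
    (∀ l : ℕ, 1 ≤ l → ∃ N₀ : ℕ, ∀ N : ℕ, N₀ ≤ N →
      (1 / 100) * (Real.log N / Real.log (Real.log N)) ^ 2 ≤ (changes 10 (√2) l N : ℝ)) ∧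
    (∀ b : ℕ, 2 ≤ b → ∀ ξ : ℝ, Irrational ξ → ∀ A B C : ℤ, A ≠ 0 →
      (A : ℝ) * ξ ^ 2 + B * ξ + C = 0 → ∀ l : ℕ, 1 ≤ l → ∃ N₀ : ℕ, ∀ N : ℕ, N₀ ≤ N →
      (1 / 100) * (Real.log N / Real.log (Real.log N)) ^ 2 ≤ (changes b ξ l N : ℝ)) := by
  have main : ∀ b : ℕ, 2 ≤ b → ∀ ξ : ℝ, Irrational ξ → ∀ A B C : ℤ, A ≠ 0 →
      (A : ℝ) * ξ ^ 2 + B * ξ + C = 0 → ∀ l : ℕ, 1 ≤ l → ∃ N₀ : ℕ, ∀ N : ℕ, N₀ ≤ N →
      (1 / 100) * (Real.log N / Real.log (Real.log N)) ^ 2 ≤ (changes b ξ l N : ℝ) :=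
    fun b hb ξ hξ A B C hA hrel l hl =>
      Pool.Agent.Helper80K9.DC.digit_changes hb hξ hA hrel hl
  refine ⟨fun l hl => main 10 (by norm_num) (√2) irrational_sqrt_two 1 0 (-2) one_ne_zero ?_ l hl,
    main⟩
  have h : (√2 : ℝ) ^ 2 = 2 := Real.sq_sqrt (by norm_num)
  rw [h]
  norm_num

end Pool.Agent.Results.MP_175f55_nt.DigitChanges
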