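import Pool.Agent.Helper20K9.DC.Fin

/-!
# Few digit changes force almost all digits to be 0 or 9
-/

set_option autoImplicit false

namespace Pool.Agent.Results.MP_175f55_nt.MostlyZeroNine

open Polynomial

/-- The digit of index `k` (that of weight `b ^ (-k)`) in the base `b` expansion of `ξ`. -/
noncomputable def digit (b : ℕ) (ξ : ℝ) (k : ℕ) : ℤ := ⌊(b : ℝ) ^ k * ξ⌋ % (b : ℤ)

/-- The number of `k` with `1 ≤ k ≤ N` such that the digits of index `k + l` and `k` differ. -/
noncomputable def changes (b l : ℕ) (ξ : ℝ) (N : ℕ) : ℕ :=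
  ((Finset.Icc 1 N).filter fun k => digit b ξ (k + l) ≠ digit b ξ k).card

/-- The number of `k` with `1 ≤ k ≤ N` such that the block of the `l` consecutive digits of
indices `k, k + 1, …, k + l - 1` is neither `0 … 0` nor `(b-1) … (b-1)`. -/
noncomputable def offBlocks (b l : ℕ) (ξ : ℝ) (N : ℕ) : ℕ := by
  classical
  exact ((Finset.Icc 1 N).filter fun k => ¬ (∀ i < l, digit b ξ (k + i) = 0) ∧
    ¬ (∀ i < l, digit b ξ (k + i) = (b : ℤ) - 1)).card

/-- In the decimal expansion of `√2` the number of digits of index at most `N` other than `0`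
and `9` is at most `C (1 + digit changes up to C N) ^ 5 log N`; similarly for every base `b`, every
lag `l`, and every real root of an integer polynomial whose leading coefficient is coprime to
`b ^ l - 1`. -/
theorem result :
    (∃ C : ℕ, ∀ N : ℕ, 2 ≤ N →
      (((Finset.Icc 1 N).filter fun k =>
          digit 10 (√2) k ≠ 0 ∧ digit 10 (√2) k ≠ 9).card : ℝ) ≤
        C * (1 + (changes 10 1 (√2) (C * N) : ℝ)) ^ 5 * Real.log N) ∧
    (∀ b l D : ℕ, 2 ≤ b → 1 ≤ l → 1 ≤ D → ∃ κ : ℕ, ∀ (ξ : ℝ) (Q : ℤ[X]),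
      Q.natDegree = D → aeval ξ Q = 0 → IsCoprime Q.leadingCoeff ((b : ℤ) ^ l - 1) →
      ∃ C : ℕ, ∀ N : ℕ, 2 ≤ N → (offBlocks b l ξ N : ℝ) ≤
        C * (1 + (changes b l ξ (C * N) : ℝ)) ^ κ * Real.log N) := by
  classical
  have hdig : ∀ b ξ k, digit b ξ k = Pool.Agent.Helper20K9.DC.dig b ξ k := fun _ _ _ => rfl
  have hchg : ∀ b l ξ N, changes b l ξ N = Pool.Agent.Helper20K9.DC.chg b l ξ N :=
    fun _ _ _ _ => rfl
  refine ⟨?_, ?_⟩
  · have hQd : (X ^ 2 - C 2 : ℤ[X]).natDegree = 2 := natDegree_X_pow_sub_C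
    have hQl : (X ^ 2 - C 2 : ℤ[X]).leadingCoeff = 1 := by
      rw [leadingCoeff, hQd]; simp
    have hroot : aeval (√2) (X ^ 2 - C 2 : ℤ[X]) = 0 := by
      rw [map_sub, map_pow, aeval_X, aeval_C, Real.sq_sqrt (by norm_num)]
      norm_num
    obtain ⟨C, hC⟩ := Pool.Agent.Helper20K9.DC.partA 10 1 (by norm_num) (√2) (X ^ 2 - C 2)
      (by rw [hQd]; norm_num) hroot 3 2 1 Nat.prime_three (by norm_num)
      (by rw [hQl]; norm_num) (by norm_num) (by rw [hQd]; norm_num)
    refine ⟨C, fun N hN => ?_⟩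
    refine le_trans ?_ (hC N hN)
    have h1 : ((Finset.Icc 1 N).filter fun k =>
          digit 10 (√2) k ≠ 0 ∧ digit 10 (√2) k ≠ 9).card ≤
        Pool.Agent.Helper20K9.DC.cnt
          {v | ¬ ((3 : ℕ) : ℤ) ^ 2 ∣ Pool.Agent.Helper20K9.DC.NN 10 1 (√2) v} N := by
      unfold Pool.Agent.Helper20K9.DC.cnt
      refine Finset.card_le_card_of_injOn (fun k => k - 1) ?_ ?_
      · intro k hk
        simp only [Finset.coe_filter, Finset.mem_Icc, Finset.mem_range, Set.mem_ofPred_eq] at hk ⊢
        obtain ⟨⟨hk1, hk2⟩, hk3, hk4⟩ := hk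
        refine ⟨by omega, fun hd => ?_⟩
        have h := Pool.Agent.Helper20K9.DC.block_of_dvd 10 1 (by norm_num) le_rfl (√2) (k - 1)
          (by convert hd using 1; norm_num)
        rcases h with h | h
        · have := h 0 (by norm_num)
          rw [show k - 1 + 1 + 0 = k by omega] at this
          exact hk3 this
        · have := h 0 (by norm_num)
          rw [show k - 1 + 1 + 0 = k by omega] at this
          exact hk4 (by rw [hdig, this]; norm_num)
      · intro x hx y hy hxy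
        simp only [Finset.coe_filter, Finset.mem_Icc, Set.mem_ofPred_eq] at hx hy
        have hxy' : x - 1 = y - 1 := hxy
        omega
    exact_mod_cast h1
  · intro b l D hb hl hD
    obtain ⟨κ, hκ⟩ := Pool.Agent.Helper20K9.DC.partA_all b l hb hl D hD
    refine ⟨κ, fun ξ Q hQ hξ hcop => ?_⟩
    obtain ⟨C, hC⟩ := hκ ξ Q hQ hξ hcop
    refine ⟨C, fun N hN => le_trans ?_ (hC N hN)⟩
    have h1 : offBlocks b l ξ N ≤ Pool.Agent.Helper20K9.DC.cnt
          {v | ¬ (b : ℤ) ^ l - 1 ∣ Pool.Agent.Helper20K9.DC.NN b l ξ v} N := by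
      unfold Pool.Agent.Helper20K9.DC.cnt offBlocks
      refine Finset.card_le_card_of_injOn (fun k => k - 1) ?_ ?_
      · intro k hk
        simp only [Finset.coe_filter, Finset.mem_Icc, Finset.mem_range, Set.mem_ofPred_eq] at hk ⊢
        obtain ⟨⟨hk1, hk2⟩, hk3, hk4⟩ := hk
        refine ⟨by omega, fun hd => ?_⟩
        have h := Pool.Agent.Helper20K9.DC.block_of_dvd b l hb hl ξ (k - 1) hd
        rw [show k - 1 + 1 = k by omega] at h
        rcases h with h | h
        · exact hk3 h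
        · exact hk4 h
      · intro x hx y hy hxy
        simp only [Finset.coe_filter, Finset.mem_Icc, Set.mem_ofPred_eq] at hx hy
        have hxy' : x - 1 = y - 1 := hxy
        omega
    exact_mod_cast h1

end Pool.Agent.Results.MP_175f55_nt.MostlyZeroNine
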