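import Pool.Agent.Helper80K9.DP.Appl

/-!
# The digits of an algebraic number are far from every periodic sequence
-/

set_option autoImplicit false

namespace Pool.Agent.Results.MP_175f55_nt.PeriodicDistance

/-- The digit of index `k` (that of weight `b ^ (-k)`) in the base `b` expansion of `ξ`. -/
noncomputable def digit (b : ℕ) (ξ : ℝ) (k : ℕ) : ℤ := ⌊ξ * (b : ℝ) ^ k⌋ % (b : ℤ)

/-- The number of indices `k` with `1 ≤ k ≤ N` at which the base `b` digits of `ξ` and `η`
differ. -/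
noncomputable def distance (b : ℕ) (ξ η : ℝ) (N : ℕ) : ℕ :=
  ((Finset.Icc 1 N).filter fun k => digit b ξ k ≠ digit b η k).card

/-- The rational number `r` has no terminating expansion in base `b`. -/
def NonTerminating (b : ℕ) (r : ℚ) : Prop := ∀ (j : ℕ) (n : ℤ), r * (b : ℚ) ^ j ≠ n

/-- The decimal digits of `√2` differ from those of a rational number with no terminating
expansion at `c √N` of the first `N` places at least; and the same with `N ^ (1 / D)` for every
root of an integer polynomial of degree `D` the prime factors of whose leading coefficient divide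
the base. -/
theorem result :
    (∀ r : ℚ, NonTerminating 10 r → ∃ c : ℝ, 0 < c ∧ ∃ N₀ : ℕ, ∀ N : ℕ, N₀ ≤ N →
      c * √(N : ℝ) ≤ (distance 10 (√2) r N : ℝ)) ∧
    (∀ b : ℕ, 2 ≤ b → ∀ P : Polynomial ℤ,
      (∀ q : ℕ, q.Prime → (q : ℤ) ∣ P.leadingCoeff → q ∣ b) →
      ∀ ξ : ℝ, Polynomial.aeval ξ P = 0 → ∀ r : ℚ, NonTerminating b r →
      ∃ c : ℝ, 0 < c ∧ ∃ N₀ : ℕ, ∀ N : ℕ, N₀ ≤ N →
      c * (N : ℝ) ^ (1 / (P.natDegree : ℝ)) ≤ (distance b ξ r N : ℝ)) := by
  have main : ∀ b : ℕ, 2 ≤ b → ∀ P : Polynomial ℤ,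
      (∀ q : ℕ, q.Prime → (q : ℤ) ∣ P.leadingCoeff → q ∣ b) →
      ∀ ξ : ℝ, Polynomial.aeval ξ P = 0 → ∀ r : ℚ, NonTerminating b r →
      ∃ c : ℝ, 0 < c ∧ ∃ N₀ : ℕ, ∀ N : ℕ, N₀ ≤ N →
      c * (N : ℝ) ^ (1 / (P.natDegree : ℝ)) ≤ (distance b ξ r N : ℝ) := by
    intro b hb P hP ξ hξ r hr
    obtain ⟨c, hc, N₀, hN⟩ := Pool.Agent.Helper80K9.DP.digits_vs_rational hb hP hξ hr
    -- the degree is positive
    have hD : P.natDegree ≠ 0 := by
      intro h0
      have h1 := Polynomial.eq_C_of_natDegree_eq_zero h0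
      obtain ⟨q, hq1, hq2⟩ := Nat.exists_infinite_primes (b + 1)
      have h2 : P.coeff 0 = 0 := by
        rw [h1, Polynomial.aeval_C] at hξ
        have : ((P.coeff 0 : ℤ) : ℝ) = 0 := by simpa using hξ
        exact_mod_cast this
      have h3 : P.leadingCoeff = 0 := by
        rw [Polynomial.leadingCoeff, h0, h2]
      have h4 := hP q hq2 (by rw [h3]; exact dvd_zero _)
      have := Nat.le_of_dvd (by omega) h4
      omega
    have hD' : (0 : ℝ) < P.natDegree := by exact_mod_cast Nat.pos_of_ne_zero hD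
    refine ⟨c ^ (1 / (P.natDegree : ℝ)), Real.rpow_pos_of_pos hc _, N₀, fun N hNN => ?_⟩
    have h1 : c * N ≤ (distance b ξ r N : ℝ) ^ P.natDegree := hN N hNN
    have h2 := Real.rpow_le_rpow (by positivity) h1 (by positivity : 0 ≤ 1 / (P.natDegree : ℝ))
    rw [Real.mul_rpow hc.le (Nat.cast_nonneg N), ← Real.rpow_natCast, ← Real.rpow_mul
      (Nat.cast_nonneg _), mul_one_div_cancel hD'.ne', Real.rpow_one] at h2
    exact h2
  refine ⟨fun r hr => ?_, main⟩
  have hdeg : (Polynomial.X ^ 2 - Polynomial.C 2 : Polynomial ℤ).natDegree = 2 :=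
    Polynomial.natDegree_X_pow_sub_C
  have hmon : (Polynomial.X ^ 2 - Polynomial.C 2 : Polynomial ℤ).leadingCoeff = 1 :=
    Polynomial.monic_X_pow_sub_C 2 (by norm_num)
  obtain ⟨c, hc, N₀, hN⟩ := main 10 (by norm_num) (Polynomial.X ^ 2 - Polynomial.C 2) (by
    intro q hq h
    rw [hmon] at h
    exact absurd h (Nat.prime_iff_prime_int.1 hq).not_dvd_one) (√2) (by
    rw [map_sub, map_pow, Polynomial.aeval_X, Polynomial.aeval_C]
    have h : (√2 : ℝ) ^ 2 = 2 := Real.sq_sqrt (by norm_num)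
    rw [h]
    simp) r hr
  refine ⟨c, hc, N₀, fun N hNN => ?_⟩
  have h := hN N hNN
  rw [hdeg] at h
  rw [Real.sqrt_eq_rpow]
  exact_mod_cast h

end Pool.Agent.Results.MP_175f55_nt.PeriodicDistance
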