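import Pool.Agent.Helper20K9.DC.Fin

/-!
# A power of `N` many digit changes for numbers totally ramified at a prime
-/

set_option autoImplicit false

namespace Pool.Agent.Results.MP_175f55_nt.PowerManyChanges

open Polynomial

/-- The digit of index `k` (that of weight `b ^ (-k)`) in the base `b` expansion of `ξ`. -/
noncomputable def digit (b : ℕ) (ξ : ℝ) (k : ℕ) : ℤ := ⌊(b : ℝ) ^ k * ξ⌋ % (b : ℤ)

/-- The number of `k` with `1 ≤ k ≤ N` such that the digits of index `k + l` and `k` differ. -/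
noncomputable def changes (b l : ℕ) (ξ : ℝ) (N : ℕ) : ℕ :=
  ((Finset.Icc 1 N).filter fun k => digit b ξ (k + l) ≠ digit b ξ k).card

/-- Let `ξ` be a real root of an integer polynomial `Q` of degree `D ≥ 2` that is Eisenstein at a
prime `q` not dividing the base `b`. Then the number of `k ≤ N` at which the base `b` digits of
index `k + l` and `k` differ is at least a constant times `(N / log N) ^ (1 / κ)`, with
`κ = (e + 1) (q ^ n - 1) + D`, where `q ^ e` is the exact power of `q` in `b ^ l - 1` and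
`q ^ n ≥ D`. The first part is the case `ξ = √d`, `l = 1`. -/
theorem result :
    (∀ b d q e : ℕ, 2 ≤ b → q.Prime → ¬ q ∣ b → q ∣ d → ¬ q ^ 2 ∣ d →
      q ^ e ∣ b - 1 → ¬ q ^ (e + 1) ∣ b - 1 →
      ∃ C : ℕ, ∀ N : ℕ, 2 ≤ N → (N : ℝ) ≤
        C * (1 + (changes b 1 (√(d : ℝ)) N : ℝ)) ^ ((e + 1) * (q - 1) + 2) * Real.log N) ∧
    (∀ b l : ℕ, 2 ≤ b → ∀ (ξ : ℝ) (Q : ℤ[X]), 2 ≤ Q.natDegree → aeval ξ Q = 0 →
      ∀ q e n : ℕ, q.Prime → ¬ q ∣ b → ¬ (q : ℤ) ∣ Q.leadingCoeff →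
      (∀ i < Q.natDegree, (q : ℤ) ∣ Q.coeff i) → ¬ (q : ℤ) ^ 2 ∣ Q.coeff 0 →
      (q : ℤ) ^ e ∣ (b : ℤ) ^ l - 1 → ¬ (q : ℤ) ^ (e + 1) ∣ (b : ℤ) ^ l - 1 →
      Q.natDegree ≤ q ^ n →
      ∃ C : ℕ, ∀ N : ℕ, 2 ≤ N → (N : ℝ) ≤
        C * (1 + (changes b l ξ N : ℝ)) ^ ((e + 1) * (q ^ n - 1) + Q.natDegree) *
          Real.log N) := by
  have gen : ∀ b l : ℕ, 2 ≤ b → ∀ (ξ : ℝ) (Q : ℤ[X]), 2 ≤ Q.natDegree → aeval ξ Q = 0 →
      ∀ q e n : ℕ, q.Prime → ¬ q ∣ b → ¬ (q : ℤ) ∣ Q.leadingCoeff →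
      (∀ i < Q.natDegree, (q : ℤ) ∣ Q.coeff i) → ¬ (q : ℤ) ^ 2 ∣ Q.coeff 0 →
      (q : ℤ) ^ e ∣ (b : ℤ) ^ l - 1 → ¬ (q : ℤ) ^ (e + 1) ∣ (b : ℤ) ^ l - 1 →
      Q.natDegree ≤ q ^ n →
      ∃ C : ℕ, ∀ N : ℕ, 2 ≤ N → (N : ℝ) ≤
        C * (1 + (changes b l ξ N : ℝ)) ^ ((e + 1) * (q ^ n - 1) + Q.natDegree) *
          Real.log N :=
    fun b l hb ξ Q hD hξ q e n hq hqb hlead hcoef h0 hqe hqe' hn =>
      Pool.Agent.Helper20K9.DC.partB b l hb ξ Q hξ q e n hq hD hqb hlead hcoef h0 hqe hqe' hn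
  refine ⟨?_, gen⟩
  intro b d q e hb hq hqb hqd hqd2 hqe hqe'
  have hQd : (X ^ 2 - C (d : ℤ) : ℤ[X]).natDegree = 2 := natDegree_X_pow_sub_C
  have hQl : (X ^ 2 - C (d : ℤ) : ℤ[X]).leadingCoeff = 1 := by
    rw [leadingCoeff, hQd]; simp
  have hroot : aeval (√(d : ℝ)) (X ^ 2 - C (d : ℤ) : ℤ[X]) = 0 := by
    rw [map_sub, map_pow, aeval_X, aeval_C, Real.sq_sqrt (by positivity)]
    simp
  have hb1 : ((b - 1 : ℕ) : ℤ) = (b : ℤ) ^ 1 - 1 := by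
    push_cast [show 1 ≤ b by omega]; ring
  obtain ⟨C, hC⟩ := gen b 1 hb (√(d : ℝ)) (X ^ 2 - C (d : ℤ)) hQd.ge hroot q e 1 hq hqb
    (by
      rw [hQl]
      intro h
      exact (Nat.prime_iff_prime_int.1 hq).not_isUnit (isUnit_of_dvd_one h))
    (by
      intro i hi
      rw [hQd] at hi
      interval_cases i
      · simp only [coeff_sub, coeff_X_pow, coeff_C_zero]
        norm_num
        exact_mod_cast hqd
      · simp [coeff_X_pow])
    (by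
      simp only [coeff_sub, coeff_X_pow, coeff_C_zero]
      norm_num
      intro h
      exact hqd2 (by exact_mod_cast h))
    (by rw [← hb1]; exact_mod_cast hqe)
    (by rw [← hb1]; exact_mod_cast hqe')
    (by rw [hQd, pow_one]; exact hq.two_le)
  refine ⟨C, fun N hN => ?_⟩
  have := hC N hN
  rwa [hQd, pow_one] at this

end Pool.Agent.Results.MP_175f55_nt.PowerManyChanges
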